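import Pool.Agent.W5h9.GC.LS
import Pool.Agent.W5h18.EP.Bridge

/-!
# Lang and Silverman's lower bound at every rational invariant, in almost all coordinates

The lower bound of Lang and Silverman with an absolute constant is known for elliptic curves whose
invariant `j` is a generic rational number. Here `x` is ANY rational number; there are no
exceptional numbers. Instead of `x` we consider its images `g x` under the matrices `g ∈ SL₂(ℤ)` with
entries of absolute value at most `D` (there are at least `D² / 2` of these). For almost all `g`,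
up to a proportion of `D ^ (-δ)`, the lower bound holds with every constant `c < 1 / 100` for all
non-torsion points over `K` of all powers `E ^ r`, with all polarizations, of all elliptic curves `E`
over `K` (so for all twists) with the invariant `g x`, for ALL number fields `K`, of any
degree, with small ramification; and also for the invariants `m (g x)`, for all linear fractional
transformations `m` over `ℚ` of small height at once. The height `H(x)` of `x` may be as large as
`D ^ A`, for any fixed `A < 5`. The lower bound contains the height of `j` and the primes of bad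
reduction: the absolute canonical height of `P` is at least `c` times `1`, plus the height of `j`,
plus the sum of `log N v / n` over the primes `v` of bad reduction of `E`.

`SPt a b` is the group of the rational points over `K` of the elliptic curve
`E : y² = x³ + a x + b`, and `chatM M P` is the canonical height (relative to `K`) of the point `P` of
`E ^ r` for the polarization given by the symmetric positive definite matrix `M`: `chat P` is the
limit of `sht (2 ^ k P) / 4 ^ k`, where `sht P` is the height of the `x`-coordinate of `P`, relative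
to `K` (see `AllFieldsAllTwists`).
-/

set_option autoImplicit false
set_option linter.unusedSectionVars false

namespace Pool.Agent.Results.MP_9a3c31_nt.EveryInvariant

open NumberField IsDedekindDomain Filter Matrix Pool.Agent.TH942 Pool.Agent.TH910.LS

section Defs

variable {K : Type} [Field K] [NumberField K]

/-- the `j`-invariant of `y² = x³ + a x + b` -/
noncomputable def jInv (a b : K) : K := 6912 * a ^ 3 / (4 * a ^ 3 + 27 * b ^ 2)

/-- The `v`-adic absolute value of the discriminant is not a twelfth power of an absolute value, or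
`j` has a pole at `v`. All primes `v` of bad reduction of `y² = x³ + a x + b` which do not divide
`6` have this property. -/
def Bad (a b : K) (v : HeightOneSpectrum (𝓞 K)) : Prop :=
  (∀ u : K, FinitePlace.mk v (4 * a ^ 3 + 27 * b ^ 2) ≠ FinitePlace.mk v u ^ 12) ∨
    1 < FinitePlace.mk v (jInv a b)

open Classical in
/-- The lower bound of Lang and Silverman with constant `c` for all non-torsion points of all powers,
with all polarizations, of all elliptic curves over `K` of invariant `j`. -/
def LangSilverman (c : ℝ) (j : K) : Prop :=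
  ∀ a b : K, 4 * a ^ 3 + 27 * b ^ 2 ≠ 0 → jInv a b = j →
    ∀ S : Finset (HeightOneSpectrum (𝓞 K)), (∀ v ∈ S, Bad a b v) →
    ∀ (r : ℕ) (M : Matrix (Fin r) (Fin r) ℤ), (M.map (Int.cast : ℤ → ℝ)).PosDef →
    ∀ P : Fin r → SPt a b, ¬ IsOfFinAddOrder P →
      c * (1 + Height.logHeight₁ j / Module.finrank ℚ K +
        (∑ v ∈ S, Real.log (Ideal.absNorm v.asIdeal)) / Module.finrank ℚ K) ≤
        chatM M P / Module.finrank ℚ K

end Defs

/-- `log H(x)` for the rational point with the coprime coordinates `x`. -/
noncomputable def hgt (x : ℤ × ℤ) : ℝ := Real.log (max x.1.natAbs x.2.natAbs : ℕ)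

/-- The image of the point `x` under `g`; coprime coordinates go to coprime coordinates. -/
def act (g : SpecialLinearGroup (Fin 2) ℤ) (x : ℤ × ℤ) : ℤ × ℤ :=
  (g 0 0 * x.1 + g 0 1 * x.2, g 1 0 * x.1 + g 1 1 * x.2)

/-- The matrices in `SL₂(ℤ)` with entries of absolute value at most `D`. -/
def Ball (D : ℕ) : Set (SpecialLinearGroup (Fin 2) ℤ) := {g | ∀ i j, |g i j| ≤ (D : ℤ)}

/-- The rational number `m (y₁ / y₂)`, for `y = (y₁, y₂)`. -/
def image (m : Matrix (Fin 2) (Fin 2) ℤ) (y : ℤ × ℤ) : ℚ :=
  ((m 0 0 * y.1 + m 0 1 * y.2 : ℤ) : ℚ) / ((m 1 0 * y.1 + m 1 1 * y.2 : ℤ) : ℚ)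

/-- The lower bound with constant `c` for all invariants `m y`, `m` an integral matrix with
determinant not zero and entries at most `D ^ κ`, over all number fields whose ramified primes have a
product at most `D ^ κ`. The denominator of `m y` is not zero. -/
def Holds (c κ : ℝ) (D : ℕ) (y : ℤ × ℤ) : Prop :=
  ∀ m : Matrix (Fin 2) (Fin 2) ℤ, m.det ≠ 0 →
    (∀ i j, Real.log (m i j).natAbs ≤ κ * Real.log D) →
    m 1 0 * y.1 + m 1 1 * y.2 ≠ 0 ∧
    ∀ (K : Type) [Field K] [NumberField K],
      ∑ p ∈ (discr K).natAbs.primeFactors, Real.log p ≤ κ * Real.log D →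
        LangSilverman c ((image m y : ℚ) : K)

section Aux

variable {K : Type} [Field K] [NumberField K]

theorem ls_of {c : ℝ} {j : K} (h : Pool.Agent.W5h9.GC.LSN c j) : LangSilverman c j := by
  have hn : (0 : ℝ) < Module.finrank ℚ K := by exact_mod_cast Module.finrank_pos
  intro a b hD hj S hS g M hM P hP
  have h1 := h a b hD hj S hS g M hM P hP
  rw [← AllFieldsAllTwists.ht_log] at h1
  have e : c * (1 + Height.logHeight₁ j / Module.finrank ℚ K +
      (∑ v ∈ S, Real.log (Ideal.absNorm v.asIdeal)) / Module.finrank ℚ K) =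
      c * (Module.finrank ℚ K + Height.logHeight₁ j +
        ∑ v ∈ S, Real.log (Ideal.absNorm v.asIdeal)) / Module.finrank ℚ K := by
    field_simp
  rw [e]
  exact div_le_div_of_nonneg_right h1 hn.le

theorem mono {c c' : ℝ} (h : c ≤ c') {j : K} (hj : LangSilverman c' j) : LangSilverman c j := by
  classical
  intro a b hD hab S hS g M hM P hP
  have h1 := hj a b hD hab S hS g M hM P hP
  refine le_trans (mul_le_mul_of_nonneg_right h ?_) h1
  have h2 : 0 ≤ Height.logHeight₁ j := Height.zero_le_logHeight₁ j
  have h3 : 0 ≤ ∑ v ∈ S, Real.log (Ideal.absNorm v.asIdeal) :=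
    Finset.sum_nonneg fun v _ => Real.log_natCast_nonneg _
  positivity

end Aux

/-- **Lang and Silverman's lower bound with an absolute constant at every rational invariant, in
almost all coordinates.** Let `0 ≤ A < 5` and `c < 1 / 100`. There are `δ > 0` and `κ > 0` such that
for all large `D` and EVERY rational point `x` of height `H(x) ≤ D ^ A`, all but a proportion of at
most `D ^ (-δ)` of the matrices `g ∈ SL₂(ℤ)` with entries of absolute value at most `D` have the
following property. For all integral matrices `m` with determinant not zero and entries at most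
`D ^ κ`, for all number fields `K` such that the product of the primes that ramify in `K` is at most
`D ^ κ`, for all elliptic curves `E` over `K` with `j(E) = m (g x)`, all `r`, all polarizations of
`E ^ r` given by symmetric positive definite matrices and all non-torsion `P ∈ E ^ r (K)`
the absolute canonical height of `P` is at least `c (1 + h(j(E)) + ∑_v log N v / [K : ℚ])`, where `v`
runs over the primes of bad reduction which do not divide `6`, and the primes with `|j(E)|_v > 1`. -/
theorem result (A c : ℝ) (hA : 0 ≤ A) (hA5 : A < 5) (hc : c < 1 / 100) :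
    ∃ δ κ : ℝ, 0 < δ ∧ 0 < κ ∧ ∀ᶠ D : ℕ in atTop,
      (Ball D).Finite ∧ (D : ℝ) ^ 2 / 2 ≤ ((Ball D).ncard : ℝ) ∧
      ∀ x : ℤ × ℤ, IsCoprime x.1 x.2 → hgt x ≤ A * Real.log D →
        (({g : SpecialLinearGroup (Fin 2) ℤ | g ∈ Ball D ∧
          ¬ Holds c κ D (act g x)}.ncard : ℕ) : ℝ) ≤ (D : ℝ) ^ (-δ) * (Ball D).ncard := by
  -- the constant
  obtain ⟨η, hη0, hη, hcη⟩ : ∃ η : ℝ, 0 < η ∧ η < 1 / 2 ∧ c ≤ (1 - 2 * η) / 100 := by
    refine ⟨min (1 / 4) ((1 - 100 * c) / 4), lt_min (by norm_num) (by linarith), ?_, ?_⟩
    · exact lt_of_le_of_lt (min_le_left _ _) (by norm_num)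
    · have := min_le_right (1 / 4) ((1 - 100 * c) / 4)
      linarith
  obtain ⟨δ, k, hδ, hk, h⟩ := Pool.Agent.W5h18.EP.bridge A (η / 4) hA hA5 (by linarith) (by linarith)
  set κ' : ℝ := min (k / 4) (η / 8) with hκ'
  have hκ'0 : 0 < κ' := lt_min (by linarith) (by linarith)
  have hκ'1 : 4 * κ' ≤ k := by
    have := min_le_left (k / 4) (η / 8)
    linarith
  have hκ'2 : κ' ≤ η / 8 := min_le_right _ _
  obtain ⟨H₀, hH⟩ := Pool.Agent.W5h9.GC.good_ls (ε := η / 4) (κ := κ') (η := η) (by linarith) hκ'0 hη
    (by linarith)
  have hlarge : ∀ᶠ D : ℕ in atTop, H₀ ≤ k * Real.log D := by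
    have h1 : Tendsto (fun D : ℕ => k * Real.log D) atTop atTop :=
      Tendsto.const_mul_atTop hk (Real.tendsto_log_atTop.comp tendsto_natCast_atTop_atTop)
    exact h1.eventually_ge_atTop H₀
  refine ⟨δ, κ' * k, hδ, by positivity, ?_⟩
  filter_upwards [h, hlarge, eventually_ge_atTop 1] with D hD hDH hD1
  obtain ⟨hfin, hcard, hmain⟩ := hD
  refine ⟨hfin, hcard, fun x hx hxA => ?_⟩
  have hL0 : 0 ≤ Real.log D := Real.log_natCast_nonneg D
  refine le_trans ?_ (hmain x hx hxA)
  have hsub : {g : SpecialLinearGroup (Fin 2) ℤ | g ∈ Ball D ∧ ¬ Holds c (κ' * k) D (act g x)} ⊆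
      {g : SpecialLinearGroup (Fin 2) ℤ |
        g ∈ Pool.Agent.Results.MP_4d5ce1_nt.EveryPoint.Ball D ∧
          ¬ (IsCoprime (act g x).1 (act g x).2 ∧
            k * Real.log D < Pool.Agent.W5h9.GC.hgt (act g x) ∧
            Pool.Agent.W5h9.GC.hgt (act g x) ≤ (A + 2) * Real.log D ∧
            Pool.Agent.W5h9.GC.Good (η / 4) k (act g x))} := by
    rintro g ⟨hgB, hnot⟩
    refine ⟨hgB, fun hgood => hnot ?_⟩
    obtain ⟨hcop, hlow, -, hG⟩ := hgood
    have hG' : Pool.Agent.W5h9.GC.Good (η / 4) (4 * κ') (act g x) := by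
      have h0 : 0 ≤ Pool.Agent.W5h9.GC.hgt (act g x) := Pool.Agent.W5h18.EP.hgt_nonneg _
      have h1 : 4 * κ' * Pool.Agent.W5h9.GC.hgt (act g x) ≤
          k * Pool.Agent.W5h9.GC.hgt (act g x) := mul_le_mul_of_nonneg_right hκ'1 h0
      intro q α T hα hTp hT
      exact hG q α T (fun i => ⟨(hα i).1, (hα i).2.trans h1⟩) hTp (hT.trans h1)
    have hk' : κ' * k * Real.log D ≤ κ' * Pool.Agent.W5h9.GC.hgt (act g x) := by
      rw [mul_assoc]
      exact mul_le_mul_of_nonneg_left hlow.le hκ'0.le
    intro m hm hmb
    obtain ⟨h4, h5⟩ := hH (act g x) hcop (hDH.trans hlow.le) hG' m hm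
      (fun i j => (hmb i j).trans hk')
    exact ⟨h4, fun K _ _ hK => mono hcη (ls_of (h5 K (hK.trans hk')))⟩
  exact_mod_cast Set.ncard_le_ncard hsub (hfin.subset fun g hg => hg.1)

end Pool.Agent.Results.MP_9a3c31_nt.EveryInvariant
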