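import Pool.Agent.W5h18.LS.Szp
import Pool.Agent.W5h18.LS.Rad

/-!
# Lang and Silverman's lower bound at every rational invariant, with no bound on the height

`EveryInvariant` proves a lower bound with an absolute constant for the invariants `m (g x)`, where
`x` is ANY rational number of height `H(x) ≤ X ^ A`, for almost all matrices `g ∈ SL₂(ℤ)` with entries
at most `X`; it needs `A < 5`, that is, `g` may not be smaller than `H(x) ^ (1 / 5)`. Here `A` is
arbitrary: the matrices `g` may be smaller than ANY power `H(x) ^ θ`, `θ > 0`, of the height of `x`, so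
that the lower bound holds for almost all invariants in an arbitrarily small neighbourhood (for the
action of `SL₂(ℤ)`) of EVERY rational number. It is the bound of the conjecture of Lang and Silverman
for abelian varieties of dimension `r` over number fields of degree at most `d`, the constant depending
only on `r`, `d` and `A`, for all forms over `K` of the powers `E ^ r` of the elliptic curves over `K`
with these invariants. No condition is imposed on the number field `K` but its degree. Uniform
statements of this kind are impossible if one asks for a bound of the Szpiro ratio at every invariant;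
the height of `j` may be `X ^ (A + 1)`, and the Szpiro ratio as large as a multiple of `A`.

Notation, from the library `Pool.Agent.TH910.LS`: `E : y² = x³ + a x + b` is an elliptic curve
over `K` of invariant `j`, with `a`, `b` integral of height at most `κ (1 + h(j))`; `L` is a finite
Galois extension of `K` and `ρ` a representation of its group by integral matrices of size `r`; it
defines a form `A` of `E ^ r` over `K`, whose points are the `P ∈ E(L) ^ r` with `FixedPt ρ P`. The
matrix `M` with `Polar ρ M` is a polarization of `A` and `chatM M P / [L : ℚ]` the absolute canonical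
height; `absH` is the absolute logarithmic height, `RamPrimes K T` says that the primes in `T` have a
nontrivial inertia group over `K`, and `logNorms T` is the sum of the `log N v`, `v ∈ T`;
`Generates P` says that `σ(P) ≠ P` for `σ ≠ 1`, and `DenseOrbit ρ P` that the orbit of `P` under the
endomorphisms of `A` over `K` is dense.
-/

set_option autoImplicit false
set_option linter.unusedSectionVars false

namespace Pool.Agent.Results.MP_9a3c31_nt.EveryInvariantForms

open Filter Matrix NumberField IsDedekindDomain Pool.Agent.TH910.LS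

/-- The lower bound of Lang and Silverman with the constant `c` for all forms of the powers `E ^ r`
of the elliptic curves `E` of invariant `j`, over the number fields of degree at most `d`. -/
def FormsBound (d r : ℕ) (κ c : ℝ) (j : ℚ) : Prop :=
  ∀ (K : Type) [Field K] [NumberField K], Module.finrank ℚ K ≤ d →
  ∀ a b : 𝓞 K, 4 * (a : K) ^ 3 + 27 * (b : K) ^ 2 ≠ 0 → jinv (a : K) b = (j : K) →
    absH (a : K) + absH (b : K) ≤ κ * (1 + absH (j : K)) →
  ∀ (L : Type) [Field L] [NumberField L] [Algebra K L] [IsGalois K L] [DecidableEq L]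
    (ρ : (L ≃ₐ[K] L) →* Matrix (Fin r) (Fin r) ℤ) (M : Matrix (Fin r) (Fin r) ℤ)
    (P : Fin r → Pts L a b) (T : Finset (HeightOneSpectrum (𝓞 L))),
    Polar ρ M → FixedPt ρ P → RamPrimes K T →
    (Generates P ∧ ¬ IsOfFinAddOrder P) ∨ (Faithful ρ ∧ DenseOrbit ρ P) →
      c * (1 + absH (j : K) + logNorms T / Module.finrank ℚ L) ≤ chatM M P / Module.finrank ℚ L

/-- `log H(x)` for the rational point with the coprime coordinates `x`. -/
noncomputable def hgt (x : ℤ × ℤ) : ℝ := Real.log (max x.1.natAbs x.2.natAbs : ℕ)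

/-- The image of the point `x` under `g`; coprime coordinates go to coprime coordinates. -/
def act (g : SpecialLinearGroup (Fin 2) ℤ) (x : ℤ × ℤ) : ℤ × ℤ :=
  (g 0 0 * x.1 + g 0 1 * x.2, g 1 0 * x.1 + g 1 1 * x.2)

/-- The matrices in `SL₂(ℤ)` with entries of absolute value at most `X`. -/
def Ball (X : ℕ) : Set (SpecialLinearGroup (Fin 2) ℤ) := {g | ∀ i j, |g i j| ≤ (X : ℤ)}

/-- The rational number `m (y₁ / y₂)`, for `y = (y₁, y₂)`. -/
def image (m : Matrix (Fin 2) (Fin 2) ℤ) (y : ℤ × ℤ) : ℚ :=
  ((m 0 0 * y.1 + m 0 1 * y.2 : ℤ) : ℚ) / ((m 1 0 * y.1 + m 1 1 * y.2 : ℤ) : ℚ)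

/-- The lower bound for all invariants `m y`, `m` an integral matrix with determinant not zero and
entries at most `X ^ η`. The denominator of `m y` is not zero. -/
def Holds (d r : ℕ) (κ c η : ℝ) (X : ℕ) (y : ℤ × ℤ) : Prop :=
  ∀ m : Matrix (Fin 2) (Fin 2) ℤ, m.det ≠ 0 →
    (∀ i j, Real.log (m i j).natAbs ≤ η * Real.log X) →
    m 1 0 * y.1 + m 1 1 * y.2 ≠ 0 ∧ FormsBound d r κ c (image m y)

/-- **Lang and Silverman's lower bound at every rational invariant.** For all `d`, `r ≥ 1`, `κ ≥ 0` and
ALL `A ≥ 0` there are `c > 0`, `δ > 0` and `η > 0` such that for all large `X` and EVERY rational point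
`x` of height `H(x) ≤ X ^ A`, all but a proportion of at most `X ^ (-δ)` of the (at least `X² / 2`)
matrices `g ∈ SL₂(ℤ)` with entries of absolute value at most `X` have the following property: for all
integral matrices `m` with determinant not zero and entries at most `X ^ η`, the lower bound of Lang
and Silverman with the constant `c` holds for all forms of `E ^ r` over all number fields `K` of degree
at most `d`, for the elliptic curves `E` over `K` with the invariant `m (g x)`. -/
theorem result (d r : ℕ) (A κ : ℝ) (hr : 0 < r) (hA : 0 ≤ A) (hκ : 0 ≤ κ) :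
    ∃ c δ η : ℝ, 0 < c ∧ 0 < δ ∧ 0 < η ∧ ∀ᶠ X : ℕ in atTop,
      (Ball X).Finite ∧ (X : ℝ) ^ 2 / 2 ≤ ((Ball X).ncard : ℝ) ∧
      ∀ x : ℤ × ℤ, IsCoprime x.1 x.2 → hgt x ≤ A * Real.log X →
        (({g : SpecialLinearGroup (Fin 2) ℤ | g ∈ Ball X ∧
          ¬ Holds d r κ c η X (act g x)}.ncard : ℕ) : ℝ) ≤ (X : ℝ) ^ (-δ) * (Ball X).ncard := by
  obtain ⟨σ, hσ⟩ : ∃ σ : ℝ, σ = 6 * (A + 2) := ⟨_, rfl⟩
  have hσ0 : 0 ≤ σ := by rw [hσ]; linarith
  obtain ⟨c, δ', hc, hδ', hmain⟩ := Y725.LS.dense_main d r 0 hr κ (σ * d) hκ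
  obtain ⟨A₀, c₀, -, hmain⟩ := hmain 1 one_ne_zero
  obtain ⟨δ, η, hδ, hη, h⟩ := Pool.Agent.W5h18.EP.one_main A (1 / 2) hA (by norm_num) (by norm_num)
  have hA2 : 0 < A + 2 := by linarith
  refine ⟨c, δ, η / 4, hc, hδ, by positivity, ?_⟩
  filter_upwards [h, eventually_ge_atTop 2, Pool.Agent.W5h18.LS.ev_log_ge (2 * Real.log 2 / η),
    Pool.Agent.W5h18.LS.ev_log_ge ((2 * (A + 2) * (|A₀| + 1)) / η)] with X hX hX2 hX3 hX4
  obtain ⟨hfin, hcard, hX⟩ := hX
  refine ⟨hfin, hcard, fun x hx hxA => ?_⟩
  have hX2r : (2 : ℝ) ≤ X := by exact_mod_cast hX2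
  have hl2 : Real.log 2 ≤ Real.log X := Real.log_le_log (by norm_num) hX2r
  have hlog2 : 0 < Real.log 2 := Real.log_pos (by norm_num)
  have hL0 : 0 < Real.log X := lt_of_lt_of_le hlog2 hl2
  refine le_trans ?_ (hX x hx hxA)
  have hsub : {g : SpecialLinearGroup (Fin 2) ℤ | g ∈ Ball X ∧
        ¬ Holds d r κ c (η / 4) X (act g x)} ⊆
      {g : SpecialLinearGroup (Fin 2) ℤ |
        g ∈ Pool.Agent.Results.MP_4d5ce1_nt.EveryPoint.Ball X ∧
          ¬ (IsCoprime (act g x).1 (act g x).2 ∧
            η * Real.log X < Pool.Agent.Results.MP_4d5ce1_nt.EveryPoint.hgt (act g x) ∧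
            Pool.Agent.Results.MP_4d5ce1_nt.EveryPoint.hgt (act g x) ≤
              Real.log 2 + (A + 1) * Real.log X ∧
            Pool.Agent.W5h18.EP.OneGood (1 / 2) η A X (act g x))} := by
    rintro g ⟨hgB, hnot⟩
    refine ⟨hgB, fun hgood => hnot ?_⟩
    obtain ⟨hcop, hlow, hup, hG⟩ := hgood
    intro m hm hmb
    obtain ⟨h1, h2, h3⟩ := Pool.Agent.W5h18.LS.den_bound (A := A) (η := η) (κ := η / 4) (D := X)
      (y := act g x) (m := m) hA (by positivity) (by linarith) hl2 (by
        rw [div_le_iff₀ hη] at hX3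
        linarith) hcop hlow hup hG hm hmb
    refine ⟨h1, ?_⟩
    intro K _ _ hK a b hab hj hκ' L _ _ _ _ _ ρ M P T hM hP hT hor
    have hSz : Y725.LS.SzpiroLe (σ * d) δ' 0 1 a b L := by
      refine Pool.Agent.W5h18.LS.szpiroLe_rad hσ0 ?_ hδ'.le hK a b hab hj L
      rw [hσ]
      exact h2
    have hA₀ : A₀ < absH (jinv (a : K) b) := by
      rw [hj, Pool.Agent.W5h18.LS.absH_rat]
      have h7 : Real.log (image m (act g x)).den ≤
          Real.log ((max (image m (act g x)).num.natAbs (image m (act g x)).den : ℕ) : ℝ) := by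
        refine Real.log_le_log (by exact_mod_cast (image m (act g x)).den_pos) ?_
        exact_mod_cast le_max_right _ _
      refine lt_of_lt_of_le ?_ h7
      have h8 : η * Real.log X ≤ 2 * (A + 2) * Real.log ((image m (act g x)).den : ℝ) := h3
      rw [div_le_iff₀ hη] at hX4
      have h9 : 2 * (A + 2) * (|A₀| + 1) ≤ 2 * (A + 2) * Real.log ((image m (act g x)).den : ℝ) := by
        linarith
      have h10 := le_of_mul_le_mul_left h9 (by linarith)
      have h11 := le_abs_self A₀
      linarith
    have hκ'' : absH (a : K) + absH (b : K) ≤ κ * (1 + absH (jinv (a : K) b)) := by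
      rw [hj]
      exact hκ'
    have := hmain K hK a b hab hκ'' L hSz ρ M P T hM hP hT hor
    rw [if_pos hA₀, hj] at this
    exact this
  exact_mod_cast Set.ncard_le_ncard hsub (hfin.subset fun g hg => hg.1)

end Pool.Agent.Results.MP_9a3c31_nt.EveryInvariantForms
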