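import Pool.Agent.W5h9.GC.LS
import Pool.Agent.W5h9.GC.CovMain

/-!
# Lang and Silverman's lower bound near the numbers with restricted partial quotients

Let `𝒜` be a finite set of positive integers and let `E_𝒜` be the (fractal) set of the numbers
`[0; a_0, a_1, …]` with all partial quotients in `𝒜`, a set of Lebesgue measure zero. We assume that
its Hausdorff dimension `δ` is larger than `1 / 2`, as for `𝒜 = {1, 2, 3}`.

We prove the lower bound of Lang and Silverman with an absolute constant `c < 1 / 100` for all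
non-torsion points `P` over `K` of all powers `E ^ g`, with all polarizations, of all elliptic curves
`E` over `K` (so for all twists), for ALL number fields `K`, of any degree, with small ramification,
such that the invariant `j(E)` is `m x`, where `x` is any rational number close to `z`, for example a
convergent of `z`, and `m` any linear fractional transformation over `ℚ` of small height; `K` and `m`
may depend on `x`. This holds for almost all `z ∈ E_𝒜` (for the Hausdorff measure of dimension `δ`),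
and for `c = (1 - 2 η) / 100` the exceptional `z` form a set of smaller Hausdorff dimension. The lower
bound contains the height of `j` and the primes of bad reduction: the absolute canonical height
of `P` is at least `c` times `1`, plus the height of `j`, plus the sum of `log N v / n` over the
primes `v` of bad reduction of `E`.

`SPt a b` is the group of the rational points over `K` of the elliptic curve
`E : y² = x³ + a x + b`, and `chatM M P` is the canonical height (relative to `K`) of the point `P` of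
`E ^ g` for the polarization given by the symmetric positive definite matrix `M`: `chat P` is the
limit of `sht (2 ^ k P) / 4 ^ k`, where `sht P` is the height of the `x`-coordinate of `P`, relative
to `K` (see `AllFieldsAllTwists`).

The definitions `EA`, `δ`, `Near` and `hgt` are in `Pool.Agent.W5h9.GC`:

* `K w = (q, p)`, where `[0; w] = p / q` is the finite continued fraction of the word `w`,
  `pre a n = [a 0, …, a (n - 1)]`, and `val a` is the limit of the `p / q` with `K (pre a n) = (q, p)`;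
* `EA 𝒜` is the set of the `val a` with all `a i ∈ 𝒜`, and `δ 𝒜` is its Hausdorff dimension;
* `hgt x = log max (|p|, |q|)` for `x = (p, q)`;
* `Near ρ z`: the pairs `x = (p, q)` of coprime integers, `q > 0`, with `|z - p / q| ≤ q ^ (ρ - 2)`.
-/

set_option autoImplicit false
set_option linter.unusedSectionVars false

namespace Pool.Agent.Results.MP_9a3c31_nt.RestrictedPartialQuotients

open NumberField IsDedekindDomain MeasureTheory Pool.Agent.TH942 Pool.Agent.TH910.LS
open Pool.Agent.W5h9.GC (EA δ Near hgt)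

section Defs

variable {K : Type} [Field K] [NumberField K]

/-- the `j`-invariant of `y² = x³ + a x + b` -/
noncomputable def jInv (a b : K) : K := 6912 * a ^ 3 / (4 * a ^ 3 + 27 * b ^ 2)

/-- The `v`-adic absolute value of the discriminant is not a twelfth power of an absolute value, or
`j` has a pole at `v`. All primes `v` of bad reduction of `y² = x³ + a x + b` which do not divide
`6` have this property. -/
def Bad (a b : K) (v : HeightOneSpectrum (𝓞 K)) : Prop :=
  (∀ u : K, FinitePlace.mk v (4 * a ^ 3 + 27 * b ^ 2) ≠ FinitePlace.mk v u ^ 12) ∨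
    1 < FinitePlace.mk v (jInv a b)

open Classical in
/-- The lower bound of Lang and Silverman with constant `c` for all non-torsion points of all powers,
with all polarizations, of all elliptic curves over `K` of invariant `j`. -/
def LangSilverman (c : ℝ) (j : K) : Prop :=
  ∀ a b : K, 4 * a ^ 3 + 27 * b ^ 2 ≠ 0 → jInv a b = j →
    ∀ S : Finset (HeightOneSpectrum (𝓞 K)), (∀ v ∈ S, Bad a b v) →
    ∀ (g : ℕ) (M : Matrix (Fin g) (Fin g) ℤ), (M.map (Int.cast : ℤ → ℝ)).PosDef →
    ∀ P : Fin g → SPt a b, ¬ IsOfFinAddOrder P →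
      c * (1 + Height.logHeight₁ j / Module.finrank ℚ K +
        (∑ v ∈ S, Real.log (Ideal.absNorm v.asIdeal)) / Module.finrank ℚ K) ≤
        chatM M P / Module.finrank ℚ K

end Defs

/-- The image of the rational point `x = (p, q)` of the line under the transformation `m`. -/
def image (m : Matrix (Fin 2) (Fin 2) ℤ) (x : ℤ × ℤ) : ℚ :=
  ((m 0 0 * x.1 + m 0 1 * x.2 : ℤ) : ℚ) / ((m 1 0 * x.1 + m 1 1 * x.2 : ℤ) : ℚ)

/-- The lower bound with constant `c` for all invariants `m x`, `m` a matrix with determinant not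
zero and entries at most `H(x) ^ κ`, over all number fields whose ramified primes have a product at
most `H(x) ^ κ`. The denominator of `m x` is not zero. -/
def Holds (c κ : ℝ) (x : ℤ × ℤ) : Prop :=
  ∀ m : Matrix (Fin 2) (Fin 2) ℤ, m.det ≠ 0 → (∀ i j, Real.log (m i j).natAbs ≤ κ * hgt x) →
    m 1 0 * x.1 + m 1 1 * x.2 ≠ 0 ∧
    ∀ (K : Type) [Field K] [NumberField K],
      ∑ p ∈ (discr K).natAbs.primeFactors, Real.log p ≤ κ * hgt x →
        LangSilverman c ((image m x : ℚ) : K)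

/-- For some `κ > 0` this is true for all but finitely many rational `x` with
`|z - x| ≤ H(x) ^ (κ - 2)`. -/
def Property (c z : ℝ) : Prop := ∃ κ : ℝ, 0 < κ ∧ {x | x ∈ Near κ z ∧ ¬ Holds c κ x}.Finite

section Aux

variable {K : Type} [Field K] [NumberField K]

theorem ls_of {c : ℝ} {j : K} (h : Pool.Agent.W5h9.GC.LSN c j) : LangSilverman c j := by
  have hn : (0 : ℝ) < Module.finrank ℚ K := by exact_mod_cast Module.finrank_pos
  intro a b hD hj S hS g M hM P hP
  have h1 := h a b hD hj S hS g M hM P hP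
  rw [← AllFieldsAllTwists.ht_log] at h1
  have e : c * (1 + Height.logHeight₁ j / Module.finrank ℚ K +
      (∑ v ∈ S, Real.log (Ideal.absNorm v.asIdeal)) / Module.finrank ℚ K) =
      c * (Module.finrank ℚ K + Height.logHeight₁ j +
        ∑ v ∈ S, Real.log (Ideal.absNorm v.asIdeal)) / Module.finrank ℚ K := by
    field_simp
  rw [e]
  exact div_le_div_of_nonneg_right h1 hn.le

theorem mono {c c' : ℝ} (h : c ≤ c') {j : K} (hj : LangSilverman c' j) : LangSilverman c j := by
  classical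
  intro a b hD hab S hS g M hM P hP
  have h1 := hj a b hD hab S hS g M hM P hP
  refine le_trans (mul_le_mul_of_nonneg_right h ?_) h1
  have h2 : 0 ≤ Height.logHeight₁ j := Height.zero_le_logHeight₁ j
  have h3 : 0 ≤ ∑ v ∈ S, Real.log (Ideal.absNorm v.asIdeal) :=
    Finset.sum_nonneg fun v _ => Real.log_natCast_nonneg _
  positivity

end Aux

theorem property_mono {c c' z : ℝ} (h : c ≤ c') (hz : Property c' z) : Property c z := by
  obtain ⟨κ, hκ, hfin⟩ := hz
  refine ⟨κ, hκ, hfin.subset ?_⟩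
  rintro x ⟨hx, hnot⟩
  exact ⟨hx, fun hh => hnot fun m hm hmb =>
    ⟨(hh m hm hmb).1, fun K _ _ hK => mono h ((hh m hm hmb).2 K hK)⟩⟩

theorem property_of {𝒜 : Set ℕ} {ε κ η z : ℝ} (hz : z ∈ EA 𝒜) (hε : 0 ≤ ε) (hκ : 0 < κ)
    (hη : η < 1 / 2) (h : 2 * ε + 2 * κ < η)
    (hB : z ∉ Pool.Agent.W5h9.GC.Bad 𝒜 ε (4 * κ) κ) : Property ((1 - 2 * η) / 100) z := by
  obtain ⟨H₀, hH⟩ := Pool.Agent.W5h9.GC.good_ls hε hκ hη h
  refine ⟨κ, hκ, ?_⟩
  have h1 : {x | x ∈ Near κ z ∧ ¬ Pool.Agent.W5h9.GC.Good ε (4 * κ) x}.Finite := by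
    by_contra hinf
    exact hB ⟨hz, hinf⟩
  have h2 : {x | x ∈ Near κ z ∧ x.2 < (⌈Real.exp H₀⌉₊ : ℕ)}.Finite :=
    Pool.Agent.W5h9.GC.near_finite (by linarith) _
  refine (h1.union h2).subset ?_
  rintro x ⟨hx, hnot⟩
  by_cases hg : Pool.Agent.W5h9.GC.Good ε (4 * κ) x
  · right
    refine ⟨hx, ?_⟩
    by_contra hcon
    push Not at hcon
    apply hnot
    have hx2 : 0 < x.2 := hx.2.1
    have h3 : H₀ ≤ hgt x := by
      have h4 : Real.exp H₀ ≤ x.2 := (Nat.le_ceil _).trans (by exact_mod_cast hcon)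
      have h5 : (x.2 : ℝ) ≤ ((max x.1.natAbs x.2.natAbs : ℕ) : ℝ) := by
        have h6 : x.2 ≤ ((max x.1.natAbs x.2.natAbs : ℕ) : ℤ) := by
          have h7 : x.2.natAbs ≤ max x.1.natAbs x.2.natAbs := le_max_right _ _
          omega
        have h7 : ((x.2 : ℤ) : ℝ) ≤ (((max x.1.natAbs x.2.natAbs : ℕ) : ℤ) : ℝ) := Int.cast_le.2 h6
        rwa [Int.cast_natCast] at h7
      have h6 : 0 < Real.exp H₀ := Real.exp_pos _
      exact (Real.le_log_iff_exp_le (by linarith)).2 (h4.trans h5)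
    intro m hm hmb
    obtain ⟨h4, h5⟩ := hH x hx.1 h3 hg m hm hmb
    exact ⟨h4, fun K _ _ hK => ls_of (h5 K hK)⟩
  · exact Or.inl ⟨hx, hg⟩

theorem dim_property {𝒜 : Set ℕ} {n : ℕ} (hA : ∀ a ∈ 𝒜, 1 ≤ a ∧ a ≤ n) (hδ : 1 / 2 < δ 𝒜) {η : ℝ}
    (hη0 : 0 < η) (hη : η < 1 / 2) :
    dimH {z | z ∈ EA 𝒜 ∧ ¬ Property ((1 - 2 * η) / 100) z} ≤
      ENNReal.ofReal (δ 𝒜 - η / 2 * (δ 𝒜 - 1 / 2)) := by
  have h1 : ∀ κ : ℝ, 0 < κ → κ < η / 4 → dimH {z | z ∈ EA 𝒜 ∧ ¬ Property ((1 - 2 * η) / 100) z} ≤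
      ENNReal.ofReal ((2 * δ 𝒜 * (1 + 2 * (4 * κ)) - (η / 2 - 2 * κ) * (2 * δ 𝒜 - 1)) / (2 - κ)) := by
    intro κ hκ hκη
    refine le_trans (dimH_mono ?_) (Pool.Agent.W5h9.GC.dim_Bad hA hδ (ε := η / 2 - 2 * κ)
      (κ := 4 * κ) (ρ := κ) (by linarith) (by linarith) (by linarith) hκ.le (by linarith))
    rintro z ⟨hz, hnv⟩
    by_contra hcon
    exact hnv (property_of hz (ε := η / 2 - 2 * κ) (by linarith) hκ hη (by linarith) hcon)
  have h2 : Filter.Tendsto (fun κ : ℝ => ENNReal.ofReal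
      ((2 * δ 𝒜 * (1 + 2 * (4 * κ)) - (η / 2 - 2 * κ) * (2 * δ 𝒜 - 1)) / (2 - κ)))
      (nhdsWithin 0 (Set.Ioi 0)) (nhds (ENNReal.ofReal (δ 𝒜 - η / 2 * (δ 𝒜 - 1 / 2)))) := by
    apply ENNReal.tendsto_ofReal
    have h3 : ContinuousAt (fun κ : ℝ =>
        (2 * δ 𝒜 * (1 + 2 * (4 * κ)) - (η / 2 - 2 * κ) * (2 * δ 𝒜 - 1)) / (2 - κ)) 0 := by
      apply ContinuousAt.div
      · fun_prop
      · fun_prop
      · norm_num
    have h4 := h3.tendsto.mono_left (nhdsWithin_le_nhds (s := Set.Ioi (0 : ℝ)))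
    convert h4 using 2
    ring
  refine ge_of_tendsto h2 ?_
  filter_upwards [Ioo_mem_nhdsGT (show (0 : ℝ) < η / 4 by linarith)] with κ hκ
  exact h1 κ hκ.1 hκ.2

/-- **Lang and Silverman's lower bound with an absolute constant for all elliptic curves, over all
number fields with small ramification, whose invariant is the image of a rational number close to
an element of `E_𝒜` under a transformation of small height.** -/
theorem result :
    (∀ (𝒜 : Set ℕ) (n : ℕ), (∀ a ∈ 𝒜, 1 ≤ a ∧ a ≤ n) →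
      -- there are infinitely many rational points near `z`
      (∀ z ∈ EA 𝒜, ∀ κ : ℝ, 0 < κ → (Near κ z).Infinite) ∧
      (1 / 2 < δ 𝒜 →
        -- the exceptional set has a smaller dimension
        (∀ η : ℝ, 0 < η → η < 1 / 2 →
          dimH {z | z ∈ EA 𝒜 ∧ ¬ Property ((1 - 2 * η) / 100) z} ≤
            ENNReal.ofReal (δ 𝒜 - η / 2 * (δ 𝒜 - 1 / 2))) ∧
        -- almost all `z`
        Measure.hausdorffMeasure (δ 𝒜) {z | z ∈ EA 𝒜 ∧ ∃ c : ℝ, c < 1 / 100 ∧ ¬ Property c z} =
          0)) ∧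
    -- the dimension is larger than `1 / 2` for instance for `𝒜 = {1, 2, 3}`
    (∀ (𝒜 : Set ℕ) (n : ℕ), (∀ a ∈ 𝒜, 1 ≤ a ∧ a ≤ n) → ∀ F : Finset ℕ, (∀ a ∈ F, a ∈ 𝒜) →
      1 < ∑ a ∈ F, 1 / ((a : ℝ) + 1) → 1 / 2 < δ 𝒜) ∧
    1 / 2 < δ {1, 2, 3} := by
  refine ⟨fun 𝒜 n hA => ⟨fun z hz ρ hρ => Pool.Agent.W5h9.GC.near_infinite hA hz hρ.le,
    fun hδ => ⟨fun η h1 h2 => dim_property hA hδ h1 h2, ?_⟩⟩, ?_, ?_⟩
  · have hsub : {z | z ∈ EA 𝒜 ∧ ∃ c : ℝ, c < 1 / 100 ∧ ¬ Property c z} ⊆
        ⋃ k : ℕ, {z | z ∈ EA 𝒜 ∧ ¬ Property ((1 - 2 * (1 / ((k : ℝ) + 3))) / 100) z} := by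
      rintro z ⟨hz, c, hc, hnv⟩
      obtain ⟨k, hk⟩ := exists_nat_one_div_lt (show (0 : ℝ) < (1 - 100 * c) / 2 by linarith)
      rw [Set.mem_iUnion]
      refine ⟨k, hz, fun hv => hnv (property_mono ?_ hv)⟩
      have h1 : 1 / ((k : ℝ) + 3) ≤ 1 / ((k : ℝ) + 1) :=
        one_div_le_one_div_of_le (by positivity) (by linarith)
      linarith
    refine measure_mono_null hsub (measure_iUnion_null fun k => ?_)
    have hk : (0 : ℝ) ≤ k := Nat.cast_nonneg _
    have h1 : (0 : ℝ) < 1 / ((k : ℝ) + 3) := by positivity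
    have h2 : 1 / ((k : ℝ) + 3) < 1 / 2 := one_div_lt_one_div_of_lt (by norm_num) (by linarith)
    have h3 := dim_property hA hδ h1 h2
    obtain ⟨-, hd1, hd0⟩ := Pool.Agent.W5h9.GC.dimH_EA 𝒜
    have h4 : dimH {z | z ∈ EA 𝒜 ∧ ¬ Property ((1 - 2 * (1 / ((k : ℝ) + 3))) / 100) z} <
        ((δ 𝒜).toNNReal : NNReal) := by
      refine lt_of_le_of_lt h3 ?_
      have h5 : ENNReal.ofReal (δ 𝒜 - 1 / ((k : ℝ) + 3) / 2 * (δ 𝒜 - 1 / 2)) <
          ENNReal.ofReal (δ 𝒜) := by
        apply (ENNReal.ofReal_lt_ofReal_iff (by linarith)).2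
        have : 0 < 1 / ((k : ℝ) + 3) / 2 * (δ 𝒜 - 1 / 2) := mul_pos (by positivity) (by linarith)
        linarith
      exact h5
    have h5 := hausdorffMeasure_of_dimH_lt h4
    rwa [Real.coe_toNNReal _ hd0] at h5
  · intro 𝒜 n hA F hF h
    exact Pool.Agent.W5h9.GC.half_lt hA hF h
  · refine Pool.Agent.W5h9.GC.half_lt (A := 3) (F := {1, 2, 3}) ?_ ?_ ?_
    · intro a ha
      simp only [Set.mem_insert_iff, Set.mem_singleton_iff] at ha
      omega
    · intro a ha
      simpa using ha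
    · norm_num

end Pool.Agent.Results.MP_9a3c31_nt.RestrictedPartialQuotients
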