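import Pool.Agent.W5h37.LST.Fin
import Pool.Agent.W5h37.Thin.Digits
import Pool.Agent.W5h37.Thin.Smooth2
import Pool.Agent.W5h37.Thin.Squares
import Pool.Agent.Results.MP_9a3c31_nt.AllFieldsAllTwists

set_option autoImplicit false

/-!
# Lang and Silverman's lower bound for invariants made of elements of thin sets

Let `A_1, …, A_m`, `m ≥ 2`, be thin sets of integers from `1` to `X` such that every arithmetic
progression with `N` terms contains at most `X ^ η |A_i| (N / X) ^ θ` elements of `A_i`
(`Spread X θ (X ^ η) (A i)`). The invariants considered are the quotients of any two non-proportional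
integral linear combinations, with coefficients at most `X ^ η`, of the entries of a tuple
`a ∈ A_1 × ⋯ × A_m` (`IsQuotient (X ^ η) a j`; for instance `j = a_1 / a_2`, and all its images under
the Möbius transformations with coefficients at most `X ^ η`). All statements hold for all tuples `a`
outside an exceptional set which is smaller than `A_1 × ⋯ × A_m` by a power of `X`, and for all
invariants `j` belonging to `a` at the same time.

1. For ALL exponents `θ > 0` (sets of any positive dimension): the lower bound of Lang and Silverman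
   with a constant depending only on `θ`, the degree, the dimension and `m`, `κ`, for all forms of
   powers `E ^ g` over all number fields `K` of degree at most `D` (`FormsBound D g κ c j`).
2. For `θ > 1 / 2`: with an ABSOLUTE constant (any `c < 1 / 100`), over ALL number fields of ALL
   degrees whose root discriminant is at most `X ^ η`, for all twists, all powers, all polarizations
   and all points `P ≠ 0` (`LangSilverman c j`); in particular there is no torsion over these fields.
3. Examples of such sets: integers with restricted digits, at least `g ^ θ` digits being allowed at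
   each place (all `0 < θ ≤ 1`); smooth numbers; the squares (`θ = 1 / 2`).

Notation of (1), from the library `Pool.Agent.TH910.LS`: `E : y² = x³ + a x + b` is an elliptic curve
over `K` of invariant `j`, with `a`, `b` integral of height at most `κ (1 + h(j))`; `L` is a finite
Galois extension of `K` and `ρ` a representation of its group by integral matrices of size `g`; it
defines a form `A` of `E ^ g` over `K`, whose points are the `P ∈ E(L) ^ g` with `FixedPt ρ P`. The
matrix `M` with `Polar ρ M` is a polarization of `A` and `chatM M P / [L : ℚ]` the absolute canonical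
height; `absH` is the absolute logarithmic height, `RamPrimes K T` says that the primes in `T` have a
nontrivial inertia group over `K`, and `logNorms T` is the sum of the `log N v`, `v ∈ T`;
`Generates P` says that `σ(P) ≠ P` for `σ ≠ 1`, and `DenseOrbit ρ P` that the orbit of `P` under the
endomorphisms of `A` over `K` is dense.
-/

namespace Pool.Agent.Results.MP_9a3c31_nt.ThinSets

open Filter Pool.Agent.W5h37.Thin Pool.Agent.TH910.LS Pool.Agent.Y725.LS NumberField IsDedekindDomain
open Pool.Agent.Results.MP_9a3c31_nt.AllFieldsAllTwists (LangSilverman rootDisc)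

/-- `j` is the quotient of the values at `a` of two non-proportional integral linear forms with
coefficients at most `H`. -/
def IsQuotient {m : ℕ} (H : ℝ) (a : Fin m → ℕ) (j : ℚ) : Prop :=
  ∃ u v : Fin m → ℤ, (∀ i, (|u i| : ℝ) ≤ H) ∧ (∀ i, (|v i| : ℝ) ≤ H) ∧
    (∃ i k, u i * v k ≠ u k * v i) ∧ j = (∑ i, (u i : ℚ) * a i) / (∑ i, (v i : ℚ) * a i)

/-- The lower bound of Lang and Silverman with the constant `c` for all forms of the powers `E ^ g`
of the elliptic curves `E` of invariant `j`, over the number fields of degree at most `D`. -/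
def FormsBound (D g : ℕ) (κ c : ℝ) (j : ℚ) : Prop :=
  ∀ (K : Type) [Field K] [NumberField K], Module.finrank ℚ K ≤ D →
  ∀ a b : 𝓞 K, 4 * (a : K) ^ 3 + 27 * (b : K) ^ 2 ≠ 0 → jinv (a : K) b = (j : K) →
    absH (a : K) + absH (b : K) ≤ κ * (1 + absH (j : K)) →
  ∀ (L : Type) [Field L] [NumberField L] [Algebra K L] [IsGalois K L] [DecidableEq L]
    (ρ : (L ≃ₐ[K] L) →* Matrix (Fin g) (Fin g) ℤ) (M : Matrix (Fin g) (Fin g) ℤ)
    (P : Fin g → Pts L a b) (T : Finset (HeightOneSpectrum (𝓞 L))),
    Polar ρ M → FixedPt ρ P → RamPrimes K T →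
    (Generates P ∧ ¬ IsOfFinAddOrder P) ∨ (Faithful ρ ∧ DenseOrbit ρ P) →
      c * (1 + absH (j : K) + logNorms T / Module.finrank ℚ L) ≤ chatM M P / Module.finrank ℚ L

open Classical in
/-- **Lang and Silverman's lower bound for invariants made of elements of thin sets.** -/
theorem result :
    -- (1) All exponents `θ > 0`.
    (∀ (m D g : ℕ) (θ κ : ℝ), 2 ≤ m → 0 < g → 0 < θ → θ ≤ 1 → 0 ≤ κ →
      ∃ c δ η : ℝ, 0 < c ∧ 0 < δ ∧ 0 < η ∧ ∀ᶠ X : ℕ in atTop, ∀ A : Fin m → Finset ℕ,
        (∀ i, Spread X θ ((X : ℝ) ^ η) (A i)) →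
          (((Fintype.piFinset A).filter fun a =>
            ¬ ∀ j : ℚ, IsQuotient ((X : ℝ) ^ η) a j → FormsBound D g κ c j).card : ℝ) ≤
            (X : ℝ) ^ (-δ) * (Fintype.piFinset A).card) ∧
    -- (2) Exponents `θ > 1 / 2`: absolute constants, fields of all degrees.
    (∀ (m : ℕ) (θ c : ℝ), 2 ≤ m → 1 / 2 < θ → θ ≤ 1 → c < 1 / 100 →
      ∃ δ η : ℝ, 0 < δ ∧ 0 < η ∧ ∀ᶠ X : ℕ in atTop, ∀ A : Fin m → Finset ℕ,
        (∀ i, Spread X θ ((X : ℝ) ^ η) (A i)) →
          (((Fintype.piFinset A).filter fun a =>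
            ¬ ∀ j : ℚ, IsQuotient ((X : ℝ) ^ η) a j →
              ∀ (K : Type) [Field K] [NumberField K], rootDisc K ≤ (X : ℝ) ^ η →
                LangSilverman c (j : K)).card : ℝ) ≤
            (X : ℝ) ^ (-δ) * (Fintype.piFinset A).card) ∧
    -- (3) Integers with restricted digits, smooth numbers, squares.
    (∀ (g : ℕ) (D : ℕ → Finset ℕ) (θ η : ℝ), 2 ≤ g → (∀ i, D i ⊆ Finset.range g) → 0 < θ → θ ≤ 1 →
      (∀ i, (g : ℝ) ^ θ ≤ (D i).card) → 0 < η →
      ∀ᶠ n : ℕ in atTop, Spread (g ^ n) θ (((g ^ n : ℕ) : ℝ) ^ η) (Restricted g D n)) ∧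
    (∀ κ η : ℝ, 2 < κ → 0 < η → ∀ᶠ X : ℕ in atTop, ∀ k : ℕ, (Real.log X) ^ κ ≤ k →
      Spread X (1 - 1 / κ) ((X : ℝ) ^ η) (Nat.smoothNumbersUpTo X k)) ∧
    (∀ η : ℝ, 0 < η → ∀ᶠ X : ℕ in atTop, Spread X (1 / 2) ((X : ℝ) ^ η) (Squares X)) := by
  have hlin : ∀ {m : ℕ} (u : Fin m → ℤ) (a : Fin m → ℕ),
      (∑ i, (u i : ℚ) * a i) = ((lin u a : ℤ) : ℚ) := by
    intro m u a
    unfold lin
    push_cast
    rfl
  refine ⟨?_, ?_, ?_, ?_, ?_⟩
  · intro m D g θ κ hm hg hθ hθ1 hκ
    obtain ⟨c, δ, η, hc, hδ, hη, h⟩ := W5h37.LST.part_one m D g θ κ (by omega) hg hθ hθ1 hκ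
    refine ⟨c, δ, η, hc, hδ, hη, ?_⟩
    filter_upwards [h] with X hX A hA
    obtain ⟨S, _, hS, hgood⟩ := hX A hA
    rw [Fintype.card_piFinset]
    push_cast
    refine le_trans ?_ hS
    have : (Fintype.piFinset A).filter (fun a =>
        ¬ ∀ j : ℚ, IsQuotient ((X : ℝ) ^ η) a j → FormsBound D g κ c j) ⊆ S := by
      intro a ha
      rw [Finset.mem_filter] at ha
      by_contra hcon
      apply ha.2
      rintro j ⟨u, v, huH, hvH, hind, rfl⟩
      rw [hlin, hlin]
      intro K _ _ hK a' b' hab hj hκ' L _ _ _ _ _ ρ M P T hM hP hT hor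
      have hj' := hj
      rw [← hj] at hκ' ⊢
      exact hgood a ha.1 hcon u v huH hvH hind K hK a' b' hab hj' hκ' L ρ M P T hM hP hT hor
    exact_mod_cast Finset.card_le_card this
  · intro m θ c hm hθ hθ1 hc
    obtain ⟨δ, η, hδ, hη, h⟩ := W5h37.LST.part_two m θ c (by omega) hθ hθ1 hc
    refine ⟨δ, η, hδ, hη, ?_⟩
    filter_upwards [h, eventually_ge_atTop 1] with X hX hX1 A hA
    obtain ⟨S, _, hS, hgood⟩ := hX A hA
    rw [Fintype.card_piFinset]
    push_cast
    refine le_trans ?_ hS
    have : (Fintype.piFinset A).filter (fun a =>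
        ¬ ∀ j : ℚ, IsQuotient ((X : ℝ) ^ η) a j →
          ∀ (K : Type) [Field K] [NumberField K], rootDisc K ≤ (X : ℝ) ^ η →
            LangSilverman c (j : K)) ⊆ S := by
      intro a ha
      rw [Finset.mem_filter] at ha
      by_contra hcon
      apply ha.2
      rintro j ⟨u, v, huH, hvH, hind, rfl⟩
      rw [hlin, hlin]
      intro K _ _ hdisc
      rw [AllFieldsAllTwists.ls_iff]
      refine hgood a ha.1 hcon u v huH hvH hind K ?_
      have hn : (0 : ℝ) < Module.finrank ℚ K := AllFieldsAllTwists.n_pos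
      have hd : (0 : ℝ) < |(NumberField.discr K : ℝ)| := by
        rw [abs_pos]
        exact_mod_cast NumberField.discr_ne_zero K
      have hX0 : (0 : ℝ) < X := by exact_mod_cast hX1
      unfold rootDisc at hdisc
      have h1 := Real.log_le_log (Real.rpow_pos_of_pos hd _) hdisc
      rw [Real.log_rpow hd, Real.log_rpow hX0, one_div, inv_mul_le_iff₀ hn] at h1
      exact h1
    exact_mod_cast Finset.card_le_card this
  · intro g D θ η hg hD hθ0 hθ1 hD2 hη
    have hg1 : (1 : ℝ) < g := by exact_mod_cast (by omega : 1 < g)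
    have htop : Tendsto (fun n : ℕ => g ^ n) atTop atTop :=
      tendsto_pow_atTop_atTop_of_one_lt (by omega)
    filter_upwards [htop.eventually (ev_const (4 * (g : ℝ) ^ 2) η hη), eventually_ge_atTop 1] with
      n hn hn1
    have h := spread_digits hg hD hθ0 hθ1 hD2 hn1
    refine ⟨h.1, h.2.1, fun c d N hd hN => (h.2.2 c d N hd hN).trans ?_⟩
    have h0 := h.card_pos
    gcongr
  · intro κ η hκ hη
    exact spread_smooth hκ hη
  · intro η hη
    exact spread_squares η hη

end Pool.Agent.Results.MP_9a3c31_nt.ThinSets
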